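import Pool.Agent.Lib.H38P.Defs
import Pool.Agent.Lib.H98S.Ord

/-!
# H38E (clinic MP_33911d_co, module E): from a crossing table to the abstract system

`Al h`: the vertices other than the pole `a` in the order of `ρ`, `h : T.Ord a ρ`. `cr h x y z`: the edge `xy` crosses the edge `az`. `xx h x y z w`:
the edges `xy` and `zw` cross.
-/

open Finset H53P

namespace H38E

variable {V : Type} [Fintype V] {T : Table V} {a : V} {ρ : V → ℝ}

/-- The vertices other than the pole. -/
def Al (_h : T.Ord a ρ) : Type := {x : V // x ≠ a}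

noncomputable instance (h : T.Ord a ρ) : LinearOrder (Al h) :=
  LinearOrder.lift' (fun x : {x : V // x ≠ a} => ρ x.1) fun x y hxy => Subtype.ext (h.1 x.1 y.1 x.2 y.2 hxy)

open Classical in
noncomputable instance (h : T.Ord a ρ) : Fintype (Al h) := inferInstanceAs (Fintype {x : V // x ≠ a})

/-- The edge `xy` crosses the ray `z`. -/
def cr (h : T.Ord a ρ) (x y z : Al h) : Prop := x ≠ y ∧ T.X a z.1 x.1 y.1 = true

/-- The edges `xy` and `zw` cross. -/
def xx (h : T.Ord a ρ) (x y z w : Al h) : Prop := T.X x.1 y.1 z.1 w.1 = true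

omit [Fintype V] in
theorem al_lt {h : T.Ord a ρ} {x y : Al h} : x < y ↔ ρ x.1 < ρ y.1 := Iff.rfl

omit [Fintype V] in
theorem cr_symm (h : T.Ord a ρ) (x y z : Al h) (hc : cr h x y z) : cr h y x z :=
  ⟨hc.1.symm, by
    have h1 := hc.2
    rw [T.symm2, T.symm1, T.symm2] at h1
    exact h1⟩

omit [Fintype V] in
theorem cr_ne (h : T.Ord a ρ) (x y z : Al h) (hc : cr h x y z) : x ≠ y ∧ z ≠ x ∧ z ≠ y := by
  have h1 := T.ne _ _ _ _ hc.2
  refine ⟨hc.1, ?_, ?_⟩
  · intro h2
    exact h1.2.2.2.2.1 (congrArg Subtype.val h2)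
  · intro h2
    exact h1.2.2.2.2.2 (congrArg Subtype.val h2)

omit [Fintype V] in
theorem xx_symm (h : T.Ord a ρ) (x y z w : Al h) (hc : xx h x y z w) : xx h z w x y := by
  unfold xx at hc ⊢
  rw [T.symm2]
  exact hc

end H38E
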