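import Pool.Agent.Lib.H98S.RAY
import Pool.Agent.Lib.H97B.B4

/-!
# H38E: the interface with modules A, B, C (to be proved there)
-/

open Finset H53P

namespace H38E

variable {V : Type} [Fintype V] {T : Table V} {a : V} {ρ : V → ℝ}

/-- number of special rays -/
def Rc (β : ℕ) : ℕ := β + 7

/-- number of chains after a merge -/
def Kd (β : ℕ) : ℕ := Rc β ^ 2

/-- number of chains before a merge -/
def Kc (β : ℕ) : ℕ := 3 * Kd β + 2

/-- the constant of a merge -/
def Fc (β : ℕ) : ℕ := (2 * Kc β + 2 * (Kc β * Rc β) ^ 2) * β + Kc β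

/-- Modules A and C. -/
theorem hyp_all (h : T.Ord a ρ) {β : ℕ} (hβ : Fintype.card (Al h) ≤ 2 ^ β) :
    H38P.Hyp (cr h) (xx h) (Kc β) (Kd β) (Rc β) (Fc β) :=
  H53P.hyp_e h hβ (by unfold Kc; omega) (by unfold Rc; omega)

/-- Module B. -/
theorem faces_all (h : T.Ord a ρ) : H38P.Faces (cr h) := (H53P.ray_e h).faces

/-- Module B. -/
theorem rf_ex (h : T.Ord a ρ) (w : Al h) (hw : ∃ x : Al h, x ≠ w) : ∃ v, v ≠ w ∧ H38P.RF (cr h) w v := by
  obtain ⟨x, hx⟩ := hw
  exact (H53P.ray_e h).exists_rf hx.symm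

end H38E
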