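import Pool.Agent.Lib.H38E.Defs
import Pool.Agent.Lib.H38P.A2

/-!
# H38E, chunk E1 (M): cutting the rotation at another vertex
-/

open Finset H53P

namespace H38E

variable {V : Type} [Fintype V] {T : Table V} {a : V} {ρ : V → ℝ}

/-- Chunk E1 (S). The same vertex in the shifted order. -/
def mv {h : T.Ord a ρ} (c : ℝ) (x : Al h) : Al (h.shift c) := ⟨x.1, x.2⟩

omit [Fintype V] in
/-- Chunk E1 (S). `shf_lt_diff`: `v` is before `w` if `w < v`, cut at `v`. -/
theorem mv_lt {h : T.Ord a ρ} {w v : Al h} (hwv : w < v) : mv (ρ v.1) v < mv (ρ v.1) w := by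
  show shf (ρ v.1) (ρ v.1) < shf (ρ v.1) (ρ w.1)
  exact shf_lt_diff le_rfl hwv

/-- Chunk E1 (M). PROOF. `w` is the least element, `w < v`. In the order cut at `v` (`h.shift (ρ v.1)`, `shf_lt_same1, shf_lt_same2, shf_lt_diff`): `x > v` gives
`mv v < mv x < mv w`. So the elements other than `w, v` are in `Io w v` or (moved) in `Io (mv v) (mv w)`, `Fintype.card (Al h) ≤ Fintype.card` of the two intervals `+ 2`; and
`Fintype.card (Al h) + 1 = Fintype.card V` (`Fintype.card_subtype_compl` or `Fintype.card_subtype_ne`). -/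
theorem two_arcs {h : T.Ord a ρ} {w v : Al h} (hw : ∀ x : Al h, x ≠ w → w < x) (hv : w < v) :
    Fintype.card V ≤ (H38P.Io w v).card + (H38P.Io (mv (ρ v.1) v) (mv (ρ v.1) w)).card + 3 := by
  classical
  have hsub : (Finset.univ : Finset V) ⊆ insert a (insert w.1 (insert v.1
      ((H38P.Io w v).image (fun x : Al h => x.1) ∪
        (H38P.Io (mv (ρ v.1) v) (mv (ρ v.1) w)).image (fun x : Al (h.shift (ρ v.1)) => x.1)))) := by
    intro y _
    by_cases hy : y = a
    · rw [hy]
      exact Finset.mem_insert_self _ _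
    refine Finset.mem_insert_of_mem ?_
    obtain ⟨x, hx⟩ : ∃ x : Al h, x.1 = y := ⟨⟨y, hy⟩, rfl⟩
    rw [← hx]
    by_cases hxw : x = w
    · rw [hxw]
      exact Finset.mem_insert_self _ _
    refine Finset.mem_insert_of_mem ?_
    have h1 : w < x := hw x hxw
    rcases lt_trichotomy x v with h2 | h2 | h2
    · refine Finset.mem_insert_of_mem (Finset.mem_union_left _ (Finset.mem_image.2 ⟨x, ?_, rfl⟩))
      exact H38P.mem_Io.2 ⟨h1, h2⟩
    · rw [h2]
      exact Finset.mem_insert_self _ _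
    · refine Finset.mem_insert_of_mem (Finset.mem_union_right _ (Finset.mem_image.2 ⟨mv (ρ v.1) x, ?_, rfl⟩))
      refine H38P.mem_Io.2 ⟨?_, ?_⟩
      · show shf (ρ v.1) (ρ v.1) < shf (ρ v.1) (ρ x.1)
        exact (shf_lt_same1 le_rfl (le_of_lt (al_lt.1 h2))).2 (al_lt.1 h2)
      · show shf (ρ v.1) (ρ x.1) < shf (ρ v.1) (ρ w.1)
        exact shf_lt_diff (le_of_lt (al_lt.1 h2)) (al_lt.1 hv)
  have h3 := Finset.card_le_card hsub
  rw [Finset.card_univ] at h3
  have h4 := Finset.card_insert_le a (insert w.1 (insert v.1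
      ((H38P.Io w v).image (fun x : Al h => x.1) ∪
        (H38P.Io (mv (ρ v.1) v) (mv (ρ v.1) w)).image (fun x : Al (h.shift (ρ v.1)) => x.1))))
  have h5 := Finset.card_insert_le w.1 (insert v.1
      ((H38P.Io w v).image (fun x : Al h => x.1) ∪
        (H38P.Io (mv (ρ v.1) v) (mv (ρ v.1) w)).image (fun x : Al (h.shift (ρ v.1)) => x.1)))
  have h6 := Finset.card_insert_le v.1
      ((H38P.Io w v).image (fun x : Al h => x.1) ∪
        (H38P.Io (mv (ρ v.1) v) (mv (ρ v.1) w)).image (fun x : Al (h.shift (ρ v.1)) => x.1))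
  have h7 := Finset.card_union_le ((H38P.Io w v).image (fun x : Al h => x.1))
    ((H38P.Io (mv (ρ v.1) v) (mv (ρ v.1) w)).image (fun x : Al (h.shift (ρ v.1)) => x.1))
  have h8 := Finset.card_image_le (s := H38P.Io w v) (f := fun x : Al h => x.1)
  have h9 := Finset.card_image_le (s := H38P.Io (mv (ρ v.1) v) (mv (ρ v.1) w))
    (f := fun x : Al (h.shift (ρ v.1)) => x.1)
  omega

/-- Chunk E1 (S). The condition does not depend on the order; `cr_symm`. -/
theorem mv_rf {h : T.Ord a ρ} {w v : Al h} (c : ℝ) (hr : H38P.RF (cr h) w v) : H38P.RF (cr (h.shift c)) (mv c v) (mv c w) := by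
  intro z hz
  have h1 : v ≠ w := fun h2 => hz.1 (by rw [h2])
  exact hr ⟨z.1, z.2⟩ (cr_symm h v w ⟨z.1, z.2⟩ ⟨h1, hz.2⟩)

end H38E
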