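import Pool.Agent.Lib.H38E.E0
import Pool.Agent.Lib.H38E.E1
import Pool.Agent.Lib.H38P.C7

/-!
# H38E, chunk E2 (M): the theorem for crossing tables
-/

open Finset H53P

namespace H38E

variable {V : Type} [Fintype V] {T : Table V} {a : V} {ρ : V → ℝ}

/-- A plane matching in a crossing table. -/
structure TM (T : Table V) (M : Finset (V × V)) : Prop where
  ne : ∀ e ∈ M, e.1 ≠ e.2
  disj : ∀ e ∈ M, ∀ f ∈ M, e ≠ f → e.1 ≠ f.1 ∧ e.1 ≠ f.2 ∧ e.2 ≠ f.1 ∧ e.2 ≠ f.2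
  plane : ∀ e ∈ M, ∀ f ∈ M, T.X e.1 e.2 f.1 f.2 = false

/-- The bound. -/
def Nc (β : ℕ) : ℕ := β * H38P.Gc (Fc β) β + Fc β

/-- Chunk E2 (M). PROOF. `H38P.main` (`hyp_all`, `faces_all`, `Kc = 3 Kd + 2`, `Rc = β + 7`; `Al h` is nontrivial: `u ≠ v`); the matching is mapped to `V` (`Finset.image (fun e => (e.1.1, e.2.1))`, injective). For `e = f`: `T.X e.1 e.2 e.1 e.2 = false` by `T.ne`. -/
theorem window (h : T.Ord a ρ) {β : ℕ} (hβ : Fintype.card (Al h) ≤ 2 ^ β) {u v : Al h} (huv : u < v) (hr : H38P.RF (cr h) u v) :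
    ∃ M : Finset (V × V), TM T M ∧ (H38P.Io u v).card ≤ Nc β * M.card + Kc β := by
  classical
  have : Nontrivial (Al h) := ⟨⟨u, v, huv.ne⟩⟩
  obtain ⟨M, hM, hb⟩ := H38P.main (hyp_all h hβ) (faces_all h) (le_refl (3 * Kd β + 2)) (le_refl (β + 7)) hβ huv hr
  have hinj : Function.Injective (fun e : Al h × Al h => ((e.1.1, e.2.1) : V × V)) := by
    rintro ⟨x, y⟩ ⟨z, w⟩ he
    simp only [Prod.mk.injEq] at he
    exact Prod.ext (Subtype.ext he.1) (Subtype.ext he.2)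
  refine ⟨M.image (fun e => (e.1.1, e.2.1)), ⟨?_, ?_, ?_⟩, ?_⟩
  · intro e he
    obtain ⟨f, hf, rfl⟩ := Finset.mem_image.1 he
    exact fun h1 => hM.ne f hf (Subtype.ext h1)
  · intro e he e' he' hne
    obtain ⟨f, hf, rfl⟩ := Finset.mem_image.1 he
    obtain ⟨f', hf', rfl⟩ := Finset.mem_image.1 he'
    have hff : f ≠ f' := fun h1 => hne (by rw [h1])
    obtain ⟨h1, h2, h3, h4⟩ := hM.disj f hf f' hf' hff
    exact ⟨fun h => h1 (Subtype.ext h), fun h => h2 (Subtype.ext h), fun h => h3 (Subtype.ext h), fun h => h4 (Subtype.ext h)⟩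
  · intro e he e' he'
    obtain ⟨f, hf, rfl⟩ := Finset.mem_image.1 he
    obtain ⟨f', hf', rfl⟩ := Finset.mem_image.1 he'
    by_cases hff : f = f'
    · rw [← hff]
      rw [Bool.eq_false_iff]
      intro h1
      exact (T.ne _ _ _ _ h1).2.2.1 rfl
    · rw [Bool.eq_false_iff]
      exact hM.plane f hf f' hf' hff
  · rw [Finset.card_image_of_injective _ hinj]
    exact hb

/-- Chunk E2 (M). PROOF. Choose `a ≠ w` (`Fintype.one_lt_card_iff`), `T.ord_exists` (`w` is least), `rf_ex`: `v`, `w < v`. `two_arcs`: one of the two intervals has at least `(card V - 3) / 2` elements; `window` for it (for the second: `mv_lt`, `mv_rf`,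
`card (Al _)` is the same). -/
theorem table_main (T : Table V) {β : ℕ} (h3 : 3 ≤ Fintype.card V) (hβ : Fintype.card V ≤ 2 ^ β) :
    ∃ M : Finset (V × V), TM T M ∧ Fintype.card V ≤ 2 * (Nc β * M.card + Kc β) + 3 := by
  classical
  obtain ⟨a, w, haw⟩ := Fintype.exists_pair_of_one_lt_card (by omega : 1 < Fintype.card V)
  obtain ⟨ρ, h, hmin⟩ := T.ord_exists haw
  have hcard : ∀ ρ' : V → ℝ, ∀ h' : T.Ord a ρ', Fintype.card (Al h') ≤ 2 ^ β := fun ρ' h' =>
    (Fintype.card_le_of_injective (fun x : Al h' => x.1) Subtype.val_injective).trans hβ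
  obtain ⟨w', hw'⟩ : ∃ w' : Al h, w' = ⟨w, haw.symm⟩ := ⟨_, rfl⟩
  have hw1 : ∀ x : Al h, x ≠ w' → w' < x := by
    intro x hx
    rw [al_lt, hw']
    refine hmin x.1 x.2 ?_
    intro h1
    apply hx
    rw [hw']
    exact Subtype.ext h1
  have hex : ∃ x : Al h, x ≠ w' := by
    obtain ⟨c, hc⟩ : ∃ c : V, c ∉ ({a, w} : Finset V) := by
      by_contra hcon
      push Not at hcon
      have h1 : (Finset.univ : Finset V) ⊆ {a, w} := fun x _ => hcon x
      have h2 := Finset.card_le_card h1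
      have h3 : ({a, w} : Finset V).card ≤ 2 := Finset.card_le_two
      rw [Finset.card_univ] at h2
      omega
    rw [Finset.mem_insert, Finset.mem_singleton, not_or] at hc
    refine ⟨⟨c, hc.1⟩, ?_⟩
    intro h1
    rw [hw'] at h1
    exact hc.2 (congrArg Subtype.val h1)
  obtain ⟨v, hvw, hr⟩ := rf_ex h w' hex
  have hwv := hw1 v hvw
  have h2 := two_arcs hw1 hwv
  obtain ⟨M1, hM1, hb1⟩ := window h (hcard _ h) hwv hr
  obtain ⟨M2, hM2, hb2⟩ := window (h.shift (ρ v.1)) (hcard _ _) (mv_lt hwv) (mv_rf (ρ v.1) hr)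
  rcases le_total M1.card M2.card with h3 | h3
  · refine ⟨M2, hM2, ?_⟩
    have h4 : Nc β * M1.card ≤ Nc β * M2.card := Nat.mul_le_mul_left _ h3
    omega
  · refine ⟨M1, hM1, ?_⟩
    have h4 : Nc β * M2.card ≤ Nc β * M1.card := Nat.mul_le_mul_left _ h3
    omega

end H38E
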