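import Pool.Agent.Lib.H38E.E2
import Pool.Agent.Lib.H53P.TZ

/-!
# H38E, chunk E3 (M): from tables to drawings
-/

open Finset H53P SimpleDraw

namespace H38E

/-- Chunk E3 (S/M). The graph of a matching. -/
def mg {V : Type} (M : Finset (V × V)) : SimpleGraph V := SimpleGraph.fromRel (fun x y => (x, y) ∈ M)

theorem e3_adj {V : Type} {M : Finset (V × V)} {x y : V} (h : (mg M).Adj x y) :
    x ≠ y ∧ ((x, y) ∈ M ∨ (y, x) ∈ M) := by
  unfold mg at h
  rwa [SimpleGraph.fromRel_adj] at h

/-- Chunk E3 (S/M). PROOF. `x` with two neighbours would be in two edges of `M` (or in one edge twice): `disj`, `ne`. -/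
theorem mg_match {V : Type} [Fintype V] {T : Table V} {M : Finset (V × V)} (h : TM T M) (x y z : V) (h1 : (mg M).Adj x y)
    (h2 : (mg M).Adj x z) : y = z := by
  obtain ⟨hxy, h1'⟩ := e3_adj h1
  obtain ⟨hxz, h2'⟩ := e3_adj h2
  rcases h1' with h1' | h1' <;> rcases h2' with h2' | h2'
  · by_contra hyz
    exact (h.disj _ h1' _ h2' fun he => hyz (congrArg Prod.snd he)).1 rfl
  · exact absurd rfl (h.disj _ h1' _ h2' fun he => hxz (congrArg Prod.fst he)).2.1
  · exact absurd rfl (h.disj _ h1' _ h2' fun he => hxy (congrArg Prod.fst he).symm).2.2.1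
  · by_contra hyz
    exact (h.disj _ h1' _ h2' fun he => hyz (congrArg Prod.fst he)).2.2.2 rfl

/-- Chunk E3 (M). PROOF. The map `e ↦ s(e.1, e.2)` is injective on `M` (`disj`: equal images have a common vertex) with image the edge set. -/
theorem mg_card {V : Type} [Fintype V] {T : Table V} {M : Finset (V × V)} (h : TM T M) : (mg M).edgeSet.ncard = M.card := by
  have h1 : (mg M).edgeSet = (fun e : V × V => s(e.1, e.2)) '' (M : Set (V × V)) := by
    ext q
    induction q using Sym2.ind with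
    | _ a b =>
      rw [SimpleGraph.mem_edgeSet]
      constructor
      · intro hab
        rcases (e3_adj hab).2 with h2 | h2
        · exact ⟨(a, b), h2, rfl⟩
        · exact ⟨(b, a), h2, Sym2.eq_swap⟩
      · rintro ⟨e, he, he2⟩
        have he' : e ∈ M := he
        have hne := h.ne e he'
        unfold mg
        rw [SimpleGraph.fromRel_adj]
        rcases Sym2.eq_iff.1 he2 with ⟨h3, h4⟩ | ⟨h3, h4⟩
        · rw [← h3, ← h4]
          exact ⟨hne, Or.inl he'⟩
        · rw [← h3, ← h4]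
          exact ⟨hne.symm, Or.inr he'⟩
  rw [h1, Set.ncard_image_of_injOn, Set.ncard_coe_finset]
  intro e he f hf hef
  by_contra hne
  obtain ⟨d1, d2, -, -⟩ := h.disj e he f hf hne
  rcases Sym2.eq_iff.1 hef with ⟨h3, -⟩ | ⟨h3, -⟩
  · exact d1 h3
  · exact d2 h3

/-- Chunk E3 (M). PROOF. As the end of `fin1_cycle` (Lib/H53P/FIN1.lean): two different edges of `mg M` have no common vertex (`disj`) and do not meet (`plane`, definition of `X`; `T.symm1, T.symm2` for the orientations). -/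
theorem mg_plane {n : ℕ} (D : SimpleDrawing n) {M : Finset (Fin n × Fin n)} (h : TM (table D) M) : D.Plane (mg M) := by
  intro a b c d hab hcd hne p hp
  exfalso
  obtain ⟨hab1, hab2⟩ := e3_adj hab
  obtain ⟨hcd1, hcd2⟩ := e3_adj hcd
  have s1 := (table D).symm1
  have s2 := (table D).symm2
  have key : (a ≠ c ∧ a ≠ d ∧ b ≠ c ∧ b ≠ d) ∧ X D a b c d = false := by
    rcases hab2 with h4 | h4 <;> rcases hcd2 with h5 | h5
    · have hef : ((a, b) : Fin n × Fin n) ≠ (c, d) := by
        intro he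
        apply hne
        rw [(Prod.mk.inj he).1, (Prod.mk.inj he).2]
      have h6 := h.plane _ h4 _ h5
      exact ⟨h.disj _ h4 _ h5 hef, h6⟩
    · have hef : ((a, b) : Fin n × Fin n) ≠ (d, c) := by
        intro he
        apply hne
        rw [(Prod.mk.inj he).1, (Prod.mk.inj he).2, Sym2.eq_swap]
      have h6 := h.plane _ h4 _ h5
      rw [s2, s1, s2] at h6
      obtain ⟨d1, d2, d3, d4⟩ := h.disj _ h4 _ h5 hef
      exact ⟨⟨d2, d1, d4, d3⟩, h6⟩
    · have hef : ((b, a) : Fin n × Fin n) ≠ (c, d) := by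
        intro he
        apply hne
        rw [← (Prod.mk.inj he).1, ← (Prod.mk.inj he).2, Sym2.eq_swap]
      have h6 := h.plane _ h4 _ h5
      rw [s1] at h6
      obtain ⟨d1, d2, d3, d4⟩ := h.disj _ h4 _ h5 hef
      exact ⟨⟨d3, d4, d1, d2⟩, h6⟩
    · have hef : ((b, a) : Fin n × Fin n) ≠ (d, c) := by
        intro he
        apply hne
        rw [(Prod.mk.inj he).1, (Prod.mk.inj he).2]
      have h6 := h.plane _ h4 _ h5
      rw [s1, s2, s1, s2] at h6
      obtain ⟨d1, d2, d3, d4⟩ := h.disj _ h4 _ h5 hef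
      exact ⟨⟨d4, d3, d2, d1⟩, h6⟩
  obtain ⟨⟨e1, e2, e3, e4⟩, hX⟩ := key
  unfold X at hX
  rw [decide_eq_false_iff_not] at hX
  exact hX ⟨hab1, hcd1, e1, e2, e3, e4, ⟨p, hp⟩⟩

/-- Chunk E3 (S/M). The bound with at least one edge. PROOF. `table_main`; if `M` is empty take the one edge `(0, 1)` (`TM`: `T.X 0 1 0 1 = false` by `T.ne`). With `1 ≤ M.card`: `n ≤ 2 (Nc β M + Kc β) + 3 ≤ (2 Nc β + 2 Kc β + 3) M`. -/
theorem drawing_main {n : ℕ} (hn : 3 ≤ n) (D : SimpleDrawing n) {β : ℕ} (hβ : n ≤ 2 ^ β) :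
    ∃ G : SimpleGraph (Fin n), D.Plane G ∧ (∀ x y z, G.Adj x y → G.Adj x z → y = z) ∧
      n ≤ (2 * Nc β + 2 * Kc β + 3) * G.edgeSet.ncard := by
  classical
  obtain ⟨M, hM, hb⟩ := table_main (table D) (β := β) (by rw [Fintype.card_fin]; exact hn)
    (by rw [Fintype.card_fin]; exact hβ)
  rw [Fintype.card_fin] at hb
  rcases M.eq_empty_or_nonempty with h0 | h0
  · obtain ⟨x, hx⟩ : ∃ x : Fin n, x = ⟨0, by omega⟩ := ⟨_, rfl⟩
    obtain ⟨y, hy⟩ : ∃ y : Fin n, y = ⟨1, by omega⟩ := ⟨_, rfl⟩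
    have hxy : x ≠ y := by
      rw [hx, hy]
      intro h
      have := congrArg Fin.val h
      simp at this
    have hT : TM (table D) {(x, y)} := by
      refine ⟨?_, ?_, ?_⟩
      · intro e he
        rw [mem_singleton.1 he]
        exact hxy
      · intro e he f hf hef
        exact absurd ((mem_singleton.1 he).trans (mem_singleton.1 hf).symm) hef
      · intro e he f hf
        rw [mem_singleton.1 he, mem_singleton.1 hf, Bool.eq_false_iff]
        intro h1
        exact ((table D).ne _ _ _ _ h1).2.2.1 rfl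
    refine ⟨mg {(x, y)}, mg_plane D hT, fun a b c h1 h2 => mg_match hT a b c h1 h2, ?_⟩
    rw [mg_card hT, card_singleton]
    rw [h0, card_empty] at hb
    omega
  · refine ⟨mg M, mg_plane D hM, fun a b c h1 h2 => mg_match hM a b c h1 h2, ?_⟩
    rw [mg_card hM]
    have h1 : 1 ≤ M.card := card_pos.2 h0
    have h2 : 2 * Kc β ≤ 2 * Kc β * M.card := Nat.le_mul_of_pos_right _ h1
    have h3 : 3 ≤ 3 * M.card := by omega
    have h4 : (2 * Nc β + 2 * Kc β + 3) * M.card = 2 * (Nc β * M.card) + 2 * Kc β * M.card + 3 * M.card := by ring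
    omega

end H38E
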