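import Pool.Agent.Lib.H38E.E3

/-!
# H38E, chunk E4 (M): the bound in real numbers
-/

open H53P SimpleDraw

namespace H38E

/-- Chunk E4 (M). PROOF. For `β ≥ 1`: `Rc β ≤ 8 β`, `Kd β ≤ 64 β ^ 2`, `Kc β ≤ 194 β ^ 2`, `Kc β * Rc β ≤ 1552 β ^ 3`, `Fc β ≤ (388 + 2 * 1552 ^ 2 + 194) β ^ 7`, `Gc (Fc β) β ≤ (48 + 2 + 1) Fc β * β ^ 3`
(`(β + 1) ^ 2 ≤ 4 β ^ 2`), `Nc β ≤ 52 * Fc β * β ^ 4`. -/
theorem poly_bound : ∃ C : ℕ, 0 < C ∧ ∀ β : ℕ, 1 ≤ β → 2 * Nc β + 2 * Kc β + 3 ≤ C * β ^ 11 := by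
  have hR : ∀ β : ℕ, 1 ≤ β → Rc β ≤ 8 * β := fun β hβ => by
    unfold Rc
    omega
  have hKd : ∀ β : ℕ, 1 ≤ β → Kd β ≤ 64 * β ^ 2 := fun β hβ => by
    unfold Kd
    calc Rc β ^ 2 ≤ (8 * β) ^ 2 := Nat.pow_le_pow_left (hR β hβ) 2
      _ = 64 * β ^ 2 := by ring
  have h1p : ∀ β k : ℕ, 1 ≤ β → 1 ≤ β ^ k := fun β k hβ => Nat.one_le_pow k β hβ
  have hKc : ∀ β : ℕ, 1 ≤ β → Kc β ≤ 194 * β ^ 2 := fun β hβ => by
    unfold Kc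
    have h1 := hKd β hβ
    have h2 := h1p β 2 hβ
    omega
  have hKR : ∀ β : ℕ, 1 ≤ β → (Kc β * Rc β) ^ 2 ≤ 1552 ^ 2 * β ^ 6 := fun β hβ => by
    calc (Kc β * Rc β) ^ 2 ≤ (194 * β ^ 2 * (8 * β)) ^ 2 :=
          Nat.pow_le_pow_left (Nat.mul_le_mul (hKc β hβ) (hR β hβ)) 2
      _ = 1552 ^ 2 * β ^ 6 := by ring
  have hF : ∀ β : ℕ, 1 ≤ β → Fc β ≤ (2 * 194 + 2 * 1552 ^ 2 + 194) * β ^ 7 := fun β hβ => by
    unfold Fc
    have h1 : Kc β ≤ 194 * β ^ 6 := (hKc β hβ).trans (Nat.mul_le_mul_left _ (Nat.pow_le_pow_right hβ (by norm_num)))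
    have h2 : Kc β ≤ 194 * β ^ 7 := (hKc β hβ).trans (Nat.mul_le_mul_left _ (Nat.pow_le_pow_right hβ (by norm_num)))
    calc (2 * Kc β + 2 * (Kc β * Rc β) ^ 2) * β + Kc β
        ≤ (2 * (194 * β ^ 6) + 2 * (1552 ^ 2 * β ^ 6)) * β + 194 * β ^ 7 :=
          Nat.add_le_add (Nat.mul_le_mul_right _ (Nat.add_le_add (Nat.mul_le_mul_left _ h1)
            (Nat.mul_le_mul_left _ (hKR β hβ)))) h2
      _ = (2 * 194 + 2 * 1552 ^ 2 + 194) * β ^ 7 := by ring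
  refine ⟨2 * (51 + 1) * (2 * 194 + 2 * 1552 ^ 2 + 194) + 2 * 194 + 3, by norm_num, fun β hβ => ?_⟩
  obtain ⟨A, hA⟩ : ∃ A, A = 2 * 194 + 2 * 1552 ^ 2 + 194 := ⟨_, rfl⟩
  have hFA := hF β hβ
  rw [← hA] at hFA ⊢
  have hG : H38P.Gc (Fc β) β ≤ 51 * (A * β ^ 10) := by
    unfold H38P.Gc
    have h1 : (β + 1) ^ 2 ≤ 4 * β ^ 2 := by
      calc (β + 1) ^ 2 ≤ (2 * β) ^ 2 := Nat.pow_le_pow_left (by omega) 2
        _ = 4 * β ^ 2 := by ring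
    have h2 : Fc β * (β * (4 * (β + 1) ^ 2)) ≤ 16 * (A * β ^ 10) := by
      calc Fc β * (β * (4 * (β + 1) ^ 2)) ≤ (A * β ^ 7) * (β * (4 * (4 * β ^ 2))) :=
            Nat.mul_le_mul hFA (Nat.mul_le_mul_left _ (Nat.mul_le_mul_left _ h1))
        _ = 16 * (A * β ^ 10) := by ring
    have h3 : Fc β * β ≤ A * β ^ 10 := by
      calc Fc β * β ≤ (A * β ^ 7) * β := Nat.mul_le_mul_right _ hFA
        _ = A * β ^ 8 := by ring
        _ ≤ A * β ^ 10 := Nat.mul_le_mul_left _ (Nat.pow_le_pow_right hβ (by norm_num))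
    have h4 : Fc β ≤ A * β ^ 10 := hFA.trans (Nat.mul_le_mul_left _ (Nat.pow_le_pow_right hβ (by norm_num)))
    omega
  have hN : Nc β ≤ 52 * (A * β ^ 11) := by
    unfold Nc
    have h1 : β * H38P.Gc (Fc β) β ≤ 51 * (A * β ^ 11) := by
      calc β * H38P.Gc (Fc β) β ≤ β * (51 * (A * β ^ 10)) := Nat.mul_le_mul_left _ hG
        _ = 51 * (A * β ^ 11) := by ring
    have h2 : Fc β ≤ A * β ^ 11 := hFA.trans (Nat.mul_le_mul_left _ (Nat.pow_le_pow_right hβ (by norm_num)))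
    omega
  have hK : Kc β ≤ 194 * β ^ 11 := (hKc β hβ).trans (Nat.mul_le_mul_left _ (Nat.pow_le_pow_right hβ (by norm_num)))
  have h1 := h1p β 11 hβ
  calc 2 * Nc β + 2 * Kc β + 3 ≤ 2 * (52 * (A * β ^ 11)) + 2 * (194 * β ^ 11) + 3 * β ^ 11 := by omega
    _ = (2 * (51 + 1) * A + 2 * 194 + 3) * β ^ 11 := by ring

/-- Chunk E4 (M). PROOF. `β = Nat.clog 2 n`: `n ≤ 2 ^ β` (`Nat.le_pow_clog`), `2 ^ (β - 1) < n`, so `(β - 1) log 2 < log n`, and `β ≤ 3 log n` (`log n ≥ log 3 > 1`: `Real.exp_one_lt_d9`; `log 2 > 0.69`). Then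
`n ≤ C β ^ 11 m ≤ C 3 ^ 11 (log n) ^ 11 m`, `c = 1 / (C 3 ^ 11)`. -/
theorem final : ∃ c : ℝ, 0 < c ∧ ∀ n : ℕ, 3 ≤ n → ∀ D : SimpleDrawing n,
    ∃ G : SimpleGraph (Fin n), D.Plane G ∧ (∀ x y z, G.Adj x y → G.Adj x z → y = z) ∧
      c * n / (Real.log n) ^ 11 ≤ G.edgeSet.ncard := by
  obtain ⟨C, hC, hCb⟩ := poly_bound
  have hC' : (0 : ℝ) < C := by exact_mod_cast hC
  refine ⟨1 / (C * 3 ^ 11), by positivity, fun n hn D => ?_⟩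
  obtain ⟨β, hβ⟩ : ∃ β, β = Nat.clog 2 n := ⟨_, rfl⟩
  have hn2 : n ≤ 2 ^ β := by
    rw [hβ]
    exact Nat.le_pow_clog (by norm_num) n
  have hβ1 : 1 ≤ β := by
    rw [hβ]
    exact Nat.clog_pos (by norm_num) (by omega)
  obtain ⟨G, hG1, hG2, hG3⟩ := drawing_main hn D hn2
  refine ⟨G, hG1, hG2, ?_⟩
  have hlog : 1 ≤ Real.log n := by
    rw [Real.le_log_iff_exp_le (by positivity)]
    have h1 := Real.exp_one_lt_d9
    have h2 : (3 : ℝ) ≤ n := by exact_mod_cast hn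
    linarith
  have hβlog : (β : ℝ) ≤ 3 * Real.log n := by
    have h1 : 2 ^ (β - 1) < n := by
      rw [hβ]
      exact Nat.pow_pred_clog_lt_self (by norm_num) (by omega)
    have h2 : ((2 : ℝ) ^ (β - 1)) < n := by exact_mod_cast h1
    have h3 : Real.log ((2 : ℝ) ^ (β - 1)) < Real.log n := Real.log_lt_log (by positivity) h2
    rw [Real.log_pow] at h3
    have h4 : ((β - 1 : ℕ) : ℝ) = (β : ℝ) - 1 := by
      rw [Nat.cast_sub hβ1, Nat.cast_one]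
    rw [h4] at h3
    have h5 := Real.log_two_gt_d9
    have h6 : (1 : ℝ) ≤ β := by exact_mod_cast hβ1
    nlinarith
  have h1 : (n : ℝ) ≤ (C : ℝ) * (β : ℝ) ^ 11 * G.edgeSet.ncard := by
    have h2 : n ≤ C * β ^ 11 * G.edgeSet.ncard := hG3.trans (Nat.mul_le_mul_right _ (hCb β hβ1))
    exact_mod_cast h2
  have h3 : (C : ℝ) * (β : ℝ) ^ 11 * G.edgeSet.ncard ≤ C * (3 * Real.log n) ^ 11 * G.edgeSet.ncard := by
    refine mul_le_mul_of_nonneg_right (mul_le_mul_of_nonneg_left ?_ hC'.le) (Nat.cast_nonneg _)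
    exact pow_le_pow_left₀ (Nat.cast_nonneg _) hβlog 11
  have hlp : 0 < (Real.log n) ^ 11 := by positivity
  rw [div_le_iff₀ hlp, one_div, inv_mul_le_iff₀ (by positivity)]
  calc (n : ℝ) ≤ _ := h1
    _ ≤ _ := h3
    _ = C * 3 ^ 11 * (G.edgeSet.ncard * Real.log n ^ 11) := by ring

end H38E
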