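import Pool.Agent.Lib.H38E.E4

/-!
# H38E, E5: pairwise disjoint edges (MP_df6f91_co)
-/

open Finset H53P SimpleDraw

namespace H38E

/-- Edges of a plane matching in the table of `D` are disjoint curves. -/
theorem tm_disj {n : ℕ} (D : SimpleDrawing n) {M : Finset (Fin n × Fin n)} (h : TM (table D) M) :
    ∀ e ∈ M, ∀ f ∈ M, e ≠ f → Disjoint (D.curve e.1 e.2) (D.curve f.1 f.2) := by
  intro e he f hf hne
  obtain ⟨h1, h2, h3, h4⟩ := h.disj e he f hf hne
  have h5 := h.plane e he f hf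
  have h6 := h.ne e he
  have h7 := h.ne f hf
  rw [table_X] at h5
  unfold X at h5
  rw [decide_eq_false_iff_not] at h5
  rw [Set.disjoint_iff_inter_eq_empty]
  by_contra h8
  exact h5 ⟨h6, h7, h1, h2, h3, h4, Set.nonempty_iff_ne_empty.2 h8⟩

/-- The bound with at least one edge. -/
theorem disj_main {n : ℕ} (hn : 3 ≤ n) (D : SimpleDrawing n) {β : ℕ} (hβ : n ≤ 2 ^ β) :
    ∃ M : Finset (Fin n × Fin n), (∀ e ∈ M, e.1 ≠ e.2) ∧
      (∀ e ∈ M, ∀ f ∈ M, e ≠ f → Disjoint (D.curve e.1 e.2) (D.curve f.1 f.2)) ∧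
      n ≤ (2 * Nc β + 2 * Kc β + 3) * M.card := by
  obtain ⟨M, hM, hb⟩ := table_main (table D) (β := β) (by simpa using hn) (by simpa using hβ)
  rw [Fintype.card_fin] at hb
  rcases Nat.eq_zero_or_pos M.card with h0 | h0
  · refine ⟨{(⟨0, by omega⟩, ⟨1, by omega⟩)}, ?_, ?_, ?_⟩
    · intro e he
      rw [Finset.mem_singleton] at he
      rw [he]
      intro h1
      have h2 := congrArg Fin.val h1
      simp at h2
    · intro e he f hf hne
      rw [Finset.mem_singleton] at he hf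
      exact absurd (he.trans hf.symm) hne
    · rw [h0, Nat.mul_zero, Nat.zero_add] at hb
      rw [Finset.card_singleton, Nat.mul_one]
      omega
  · refine ⟨M, hM.ne, tm_disj D hM, ?_⟩
    have h1 : 2 * Kc β ≤ 2 * Kc β * M.card := Nat.le_mul_of_pos_right _ h0
    calc n ≤ 2 * (Nc β * M.card + Kc β) + 3 := hb
      _ ≤ 2 * Nc β * M.card + 2 * Kc β * M.card + 3 * M.card := by nlinarith
      _ = (2 * Nc β + 2 * Kc β + 3) * M.card := by ring

/-- **Pairwise disjoint edges.** -/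
theorem final_disj : ∃ c : ℝ, 0 < c ∧ ∀ n : ℕ, 3 ≤ n → ∀ D : SimpleDrawing n,
    ∃ M : Finset (Fin n × Fin n), (∀ e ∈ M, e.1 ≠ e.2) ∧
      (∀ e ∈ M, ∀ f ∈ M, e ≠ f → Disjoint (D.curve e.1 e.2) (D.curve f.1 f.2)) ∧
      c * n / (Real.log n) ^ 11 ≤ M.card := by
  obtain ⟨C, hC, hCb⟩ := poly_bound
  have hC' : (0 : ℝ) < C := by exact_mod_cast hC
  refine ⟨1 / (C * 3 ^ 11), by positivity, fun n hn D => ?_⟩
  obtain ⟨β, hβ⟩ : ∃ β, β = Nat.clog 2 n := ⟨_, rfl⟩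
  have hn2 : n ≤ 2 ^ β := by
    rw [hβ]
    exact Nat.le_pow_clog (by norm_num) n
  have hβ1 : 1 ≤ β := by
    rw [hβ]
    exact Nat.clog_pos (by norm_num) (by omega)
  obtain ⟨M, hM1, hM2, hM3⟩ := disj_main hn D hn2
  refine ⟨M, hM1, hM2, ?_⟩
  have hlog : 1 ≤ Real.log n := by
    rw [Real.le_log_iff_exp_le (by positivity)]
    have h1 := Real.exp_one_lt_d9
    have h2 : (3 : ℝ) ≤ n := by exact_mod_cast hn
    linarith
  have hβlog : (β : ℝ) ≤ 3 * Real.log n := by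
    have h1 : 2 ^ (β - 1) < n := by
      rw [hβ]
      exact Nat.pow_pred_clog_lt_self (by norm_num) (by omega)
    have h2 : ((2 : ℝ) ^ (β - 1)) < n := by exact_mod_cast h1
    have h3 : Real.log ((2 : ℝ) ^ (β - 1)) < Real.log n := Real.log_lt_log (by positivity) h2
    rw [Real.log_pow] at h3
    have h4 : ((β - 1 : ℕ) : ℝ) = (β : ℝ) - 1 := by
      rw [Nat.cast_sub hβ1, Nat.cast_one]
    rw [h4] at h3
    have h5 := Real.log_two_gt_d9
    have h6 : (1 : ℝ) ≤ β := by exact_mod_cast hβ1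
    nlinarith
  have h1 : (n : ℝ) ≤ (C : ℝ) * (β : ℝ) ^ 11 * M.card := by
    have h2 : n ≤ C * β ^ 11 * M.card := hM3.trans (Nat.mul_le_mul_right _ (hCb β hβ1))
    exact_mod_cast h2
  have h3 : (C : ℝ) * (β : ℝ) ^ 11 * M.card ≤ C * (3 * Real.log n) ^ 11 * M.card := by
    refine mul_le_mul_of_nonneg_right (mul_le_mul_of_nonneg_left ?_ hC'.le) (Nat.cast_nonneg _)
    exact pow_le_pow_left₀ (Nat.cast_nonneg _) hβlog 11
  have hlp : 0 < (Real.log n) ^ 11 := by positivity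
  rw [div_le_iff₀ hlp, one_div, inv_mul_le_iff₀ (by positivity)]
  calc (n : ℝ) ≤ _ := h1
    _ ≤ _ := h3
    _ = C * 3 ^ 11 * (M.card * Real.log n ^ 11) := by ring

end H38E
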